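import Pool.Agent.TH402.AK.Trip

/-!
# The number of abc triples over `ℚ(√5)` with small radical

Up to units, at most `O(L X ^ (2 / 3 + ε))` coprime triples `a + b + c = 0` of integers of `ℚ(√5)` have
radical at most `X` and height at most `e ^ L`; so at most `O(X ^ ((2 / 3) (1 - δ) + ε))` of them have height
`H ≤ X` and radical at most `κ H ^ (1 - δ)`.
-/

set_option autoImplicit false

namespace Pool.Agent.Results.MP_2a5a28_nt.GoldenRadicalCount

open NumberField IsDedekindDomain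

variable {K : Type} [Field K] [NumberField K]

/-- the triples in lowest terms with `a + b + c = 0` and `abc ≠ 0` -/
structure Triple (t : 𝓞 K × 𝓞 K × 𝓞 K) : Prop where
  sum : t.1 + t.2.1 + t.2.2 = 0
  ne : t.1 * t.2.1 * t.2.2 ≠ 0
  cop : Ideal.span {t.1, t.2.1, t.2.2} = (⊤ : Ideal (𝓞 K))

/-- the height `H(a, b, c)`: the product over the field embeddings `φ : K → ℂ` (two real ones when
`K = ℚ(√5)`) of `max (|φ a|, |φ b|, |φ c|)` -/
noncomputable def height (t : 𝓞 K × 𝓞 K × 𝓞 K) : ℝ :=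
  ∏ φ : K →+* ℂ, max ‖φ t.1‖ (max ‖φ t.2.1‖ ‖φ t.2.2‖)

/-- the radical: the product of the norms of the prime ideals dividing `abc` -/
noncomputable def rad (t : 𝓞 K × 𝓞 K × 𝓞 K) : ℝ :=
  ∏ᶠ (P : HeightOneSpectrum (𝓞 K)) (_ : t.1 * t.2.1 * t.2.2 ∈ P.asIdeal),
    (Ideal.absNorm P.asIdeal : ℝ)

/-- no two members of the set differ by a unit -/
def Inequivalent (E : Finset (𝓞 K × 𝓞 K × 𝓞 K)) : Prop :=
  ∀ t ∈ E, ∀ s ∈ E, ∀ u : (𝓞 K)ˣ, s = (u * t.1, u * t.2.1, u * t.2.2) → s = t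

theorem part1 (K : Type) [Field K] [NumberField K] (ε : ℝ) (hε : 0 < ε) : ∃ C : ℝ, 0 < C ∧
    ∀ X L : ℝ, 1 ≤ X → 1 ≤ L → ∀ E : Finset (𝓞 K × 𝓞 K × 𝓞 K), Inequivalent E →
      (∀ t ∈ E, Triple t ∧ rad t ≤ X ∧ height t ≤ Real.exp L) →
      (E.card : ℝ) ≤ C * L * X ^ (2 / 3 + ε) := by
  obtain ⟨C, hC, h⟩ := Pool.Agent.TH402.AK.Trip.count K ε hε
  refine ⟨C, hC, fun X L hX hL E hun hE => h X L hX hL E (fun t ht => ?_) hun⟩
  obtain ⟨h1, h2, h3⟩ := hE t ht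
  refine ⟨⟨h1.sum, h1.ne, h1.cop⟩, h2, ?_⟩
  have h4 : 0 ≤ height t := Finset.prod_nonneg fun φ _ => (norm_nonneg _).trans (le_max_left _ _)
  rcases h4.eq_or_lt with h5 | h5
  · have h6 : Pool.Agent.TH402.AK.Trip.height t = 0 := h5.symm
    rw [h6, Real.log_zero]
    linarith
  · exact (Real.log_le_iff_le_exp h5).2 h3

/-- Let `K = ℚ(√5)` and `ε > 0`. There is `C` such that for `X ≥ 1`, `L ≥ 1` any set of triples
`a + b + c = 0` in lowest terms, no two of them differing by a unit, with `rad ≤ X` and height at most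
`e ^ L` has at most `C L X ^ (2 / 3 + ε)` elements. For all `κ` and `0 ≤ δ ≤ 1` there is `C` such that for
`X ≥ 1` any such set of triples with height `H ≤ X` and `rad ≤ κ H ^ (1 - δ)` has at most
`C X ^ ((2 / 3) (1 - δ) + ε)` elements. -/
theorem result : ∀ (K : Type) [Field K] [NumberField K], Module.finrank ℚ K = 2 →
    (∃ s : K, s ^ 2 = 5) → ∀ ε : ℝ, 0 < ε →
    (∃ C : ℝ, ∀ X L : ℝ, 1 ≤ X → 1 ≤ L → ∀ E : Finset (𝓞 K × 𝓞 K × 𝓞 K), Inequivalent E →
      (∀ t ∈ E, Triple t ∧ rad t ≤ X ∧ height t ≤ Real.exp L) →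
      (E.card : ℝ) ≤ C * L * X ^ (2 / 3 + ε)) ∧
    (∀ κ δ : ℝ, 0 ≤ δ → δ ≤ 1 → ∃ C : ℝ, ∀ X : ℝ, 1 ≤ X →
      ∀ E : Finset (𝓞 K × 𝓞 K × 𝓞 K), Inequivalent E →
      (∀ t ∈ E, Triple t ∧ height t ≤ X ∧ rad t ≤ κ * height t ^ (1 - δ)) →
      (E.card : ℝ) ≤ C * X ^ (2 / 3 * (1 - δ) + ε)) := by
  intro K _ _ _ _ ε hε
  refine ⟨?_, ?_⟩
  · obtain ⟨C, _, h⟩ := part1 K ε hε
    exact ⟨C, h⟩
  · intro κ δ hδ hδ1
    obtain ⟨C, hC, h⟩ := part1 K (ε / 2) (by positivity)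
    obtain ⟨κ', hκ'⟩ : ∃ κ' : ℝ, κ' = max κ 1 := ⟨_, rfl⟩
    have hκ1 : 1 ≤ κ' := by rw [hκ']; exact le_max_right _ _
    have hκ0 : 0 < κ' := by linarith
    refine ⟨C * (1 + 2 / ε) * κ' ^ (2 / 3 + ε / 2), fun X hX E hun hE => ?_⟩
    have hX0 : 0 < X := by linarith
    have hlog : 0 ≤ Real.log X := Real.log_nonneg hX
    have hXp : 1 ≤ X ^ (1 - δ) := Real.one_le_rpow hX (by linarith)
    have h1 := h (κ' * X ^ (1 - δ)) (1 + Real.log X) (by nlinarith) (by linarith) E hun (by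
      intro t ht
      obtain ⟨h1, h2, h3⟩ := hE t ht
      have h4 : 0 ≤ height t := Finset.prod_nonneg fun φ _ => (norm_nonneg _).trans (le_max_left _ _)
      have h5 : height t ^ (1 - δ) ≤ X ^ (1 - δ) := Real.rpow_le_rpow h4 h2 (by linarith)
      refine ⟨h1, h3.trans ?_, ?_⟩
      · have h6 : κ * height t ^ (1 - δ) ≤ κ' * height t ^ (1 - δ) := by
          apply mul_le_mul_of_nonneg_right _ (Real.rpow_nonneg h4 _)
          rw [hκ']
          exact le_max_left _ _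
        exact h6.trans (mul_le_mul_of_nonneg_left h5 hκ0.le)
      · refine h2.trans ?_
        rw [← Real.exp_log hX0]
        apply Real.exp_le_exp.2
        rw [Real.log_exp]
        linarith)
    refine h1.trans ?_
    have h2 : Real.log X ≤ X ^ (ε / 2) / (ε / 2) := Real.log_le_rpow_div hX0.le (by positivity)
    have h3 : 1 ≤ X ^ (ε / 2) := Real.one_le_rpow hX (by positivity)
    have h4 : 1 + Real.log X ≤ (1 + 2 / ε) * X ^ (ε / 2) := by
      have e : X ^ (ε / 2) / (ε / 2) = 2 / ε * X ^ (ε / 2) := by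
        field_simp
      rw [e] at h2
      linarith
    have h5 : (κ' * X ^ (1 - δ)) ^ (2 / 3 + ε / 2) ≤
        κ' ^ (2 / 3 + ε / 2) * X ^ (2 / 3 * (1 - δ) + ε / 2) := by
      rw [Real.mul_rpow hκ0.le (by positivity), ← Real.rpow_mul hX0.le]
      apply mul_le_mul_of_nonneg_left _ (by positivity)
      apply Real.rpow_le_rpow_of_exponent_le hX
      nlinarith
    calc C * (1 + Real.log X) * (κ' * X ^ (1 - δ)) ^ (2 / 3 + ε / 2)
        ≤ C * ((1 + 2 / ε) * X ^ (ε / 2)) *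
          (κ' ^ (2 / 3 + ε / 2) * X ^ (2 / 3 * (1 - δ) + ε / 2)) := by
          apply mul_le_mul _ h5 (by positivity) (by positivity)
          exact mul_le_mul_of_nonneg_left h4 hC.le
      _ = C * (1 + 2 / ε) * κ' ^ (2 / 3 + ε / 2) *
          (X ^ (ε / 2) * X ^ (2 / 3 * (1 - δ) + ε / 2)) := by ring
      _ = C * (1 + 2 / ε) * κ' ^ (2 / 3 + ε / 2) * X ^ (2 / 3 * (1 - δ) + ε) := by
          rw [← Real.rpow_add hX0]
          congr 2
          ring

end Pool.Agent.Results.MP_2a5a28_nt.GoldenRadicalCount
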