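import Mathlib
import Pool.Agent.TH876.NP.Def
import Pool.Agent.TH876.NP.Def2
import Pool.Agent.TH876.NP.Classes
import Pool.Agent.TH876.NP.Roots
import Pool.Agent.TH876.NP.Gap
import Pool.Agent.TH876.NP.Choose
import Pool.Agent.TH876.NP.Scale
import Pool.Agent.TH876.NP.Core
import Pool.Agent.TH876.NP.Three
import Pool.Agent.TH876.NP.Trip

/-!
# Triples of integers of `ℚ(√5)` with a perfect power member by their radical

Up to units, the coprime triples `a + b + c = 0` of integers of `ℚ(√5)` with `abc ≠ 0` one member of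
which is a unit times an `m`-th power are counted by their radical; their height may be much larger
than every power of the radical.
-/

set_option autoImplicit false

namespace Pool.Agent.Results.MP_2a5a28_nt.PerfectPowerMember

open NumberField IsDedekindDomain

variable {K : Type} [Field K] [NumberField K]

/-- the triples in lowest terms with `a + b + c = 0` and `abc ≠ 0` -/
structure Triple (t : 𝓞 K × 𝓞 K × 𝓞 K) : Prop where
  sum : t.1 + t.2.1 + t.2.2 = 0
  ne : t.1 * t.2.1 * t.2.2 ≠ 0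
  cop : Ideal.span {t.1, t.2.1, t.2.2} = (⊤ : Ideal (𝓞 K))

/-- one member is a unit times an `m`-th power -/
def HasPower (m : ℕ) (t : 𝓞 K × 𝓞 K × 𝓞 K) : Prop :=
  ∃ (u : (𝓞 K)ˣ) (z : 𝓞 K), t.1 = u * z ^ m ∨ t.2.1 = u * z ^ m ∨ t.2.2 = u * z ^ m

/-- the height `H(a, b, c)`: the product over the field embeddings `φ : K → ℂ` (two real ones when
`K = ℚ(√5)`) of `max (|φ a|, |φ b|, |φ c|)` -/
noncomputable def height (t : 𝓞 K × 𝓞 K × 𝓞 K) : ℝ :=
  ∏ φ : K →+* ℂ, max ‖φ t.1‖ (max ‖φ t.2.1‖ ‖φ t.2.2‖)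

/-- the radical: the product of the norms of the prime ideals dividing `abc` -/
noncomputable def rad (t : 𝓞 K × 𝓞 K × 𝓞 K) : ℝ :=
  ∏ᶠ (P : HeightOneSpectrum (𝓞 K)) (_ : t.1 * t.2.1 * t.2.2 ∈ P.asIdeal),
    (Ideal.absNorm P.asIdeal : ℝ)

/-- Let `K = ℚ(√5)` and `𝓞 K = ℤ[(1 + √5) / 2]` its ring of integers, `m ≥ 2` and `ε > 0`. There is
`C` such that for all `X, y, H ≥ 1` any set of triples `a + b + c = 0` in lowest terms, no two of
them differing by a unit, with a member which is a unit times an `m`-th power, with radical at most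
`X`, all primes of norm at most `y` and height at most `exp H`, has at most
`C y X ^ ((m + 1) / (2 m + 1) + ε) (1 + log H)` elements. -/
theorem result : ∀ (K : Type) [Field K] [NumberField K], Module.finrank ℚ K = 2 →
    (∃ s : K, s ^ 2 = 5) → ∀ (m : ℕ) (ε : ℝ), 2 ≤ m → 0 < ε → ∃ C : ℝ,
    ∀ X y H : ℝ, 1 ≤ X → 1 ≤ y → 1 ≤ H → ∀ E : Finset (𝓞 K × 𝓞 K × 𝓞 K),
      (∀ t ∈ E, Triple t ∧ HasPower m t ∧ rad t ≤ X ∧
        (∀ P : HeightOneSpectrum (𝓞 K), t.1 * t.2.1 * t.2.2 ∈ P.asIdeal →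
          (Ideal.absNorm P.asIdeal : ℝ) ≤ y) ∧ Real.log (height t) ≤ H) →
      (∀ t ∈ E, ∀ s ∈ E, ∀ u : (𝓞 K)ˣ, s = (u * t.1, u * t.2.1, u * t.2.2) → s = t) →
      (E.card : ℝ) ≤ C * y * X ^ (((m : ℝ) + 1) / (2 * m + 1) + ε) * (1 + Real.log H) := by
  intro K _ _ _ _ m ε hm hε
  obtain ⟨C, _, h⟩ := Pool.Agent.TH876.NP.trip K
    (Pool.Agent.TH876.NP.three K (Pool.Agent.TH876.NP.choose K) (Pool.Agent.TH876.NP.core K
      (Pool.Agent.TH876.NP.scale K (Pool.Agent.TH876.NP.classes K) (Pool.Agent.TH876.NP.roots K)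
        (Pool.Agent.TH876.NP.gap K)))) m ε hm hε
  refine ⟨C, fun X y H hX hy hH E hE hu => h X y H hX hy hH E ?_ hu⟩
  intro t ht
  obtain ⟨h1, h2, h3, h4, h5⟩ := hE t ht
  exact { sum := h1.sum, ne := h1.ne, cop := h1.cop, pow := h2, rad := h3, smooth := h4, height := h5 }

end Pool.Agent.Results.MP_2a5a28_nt.PerfectPowerMember
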